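import Pool.Agent.Lib.BPT.Final

/-!
# Polystable bundles `E` with `H⁰(E ⊗ F) ≠ 0` for all `F` of slope `g - 1` and bounded rank

Let `X` be a compact Riemann surface of genus `g ≥ 2` and `m` a natural number. For all large `r` there
is a direct sum `E` of stable bundles of degree `0`, of rank `r` and with trivial determinant, such that
`H⁰(X, E ⊗ F) ≠ 0` for all `k = 1, ..., m` and every bundle `F` of rank `k` and degree `k (g - 1)`.
By strange duality the divisors `Θ_F` of these `F` span `|L^k|`, so `E` is a base point of `|L^k|` for all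
`k ≤ m`.

The definitions (`IsCurveField`, `Place`, `VB`, `deg`, `IsHom`, `StableZero`, `directSum`,
`TrivialDet`, `HasSection`, `secD`, `HasGenus`) are in `Pool/Agent/Lib/BPT/Defs.lean`.
-/

namespace Pool.Agent.Results.MP_9f56aa_ag.UniversalBasePoints

open Pool.Agent.Lib.BPT

theorem result (K : Type) [Field K] [Algebra ℂ K] (hK : IsCurveField K) (g : ℕ)
    (hg : HasGenus K g) (hg2 : 2 ≤ g) (m : ℕ) :
    ∃ r₀ : ℕ, ∀ r, r₀ ≤ r → ∃ (t : ℕ) (n : Fin t → ℕ) (E : ∀ i, VB K (Fin (n i))),
      ∑ i, n i = r ∧ (∀ i, 0 < n i) ∧ (∀ i, StableZero (E i)) ∧ TrivialDet (directSum E) ∧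
      ∀ k : ℕ, 1 ≤ k → k ≤ m → ∀ F : VB K (Fin k), deg F = k * ((g : ℤ) - 1) →
        HasSection (directSum E) F :=
  haveI := curveFacts hK
  main hg hg2 m

end Pool.Agent.Results.MP_9f56aa_ag.UniversalBasePoints
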